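import Pool.Agent.N964.MX.K6
import Pool.Agent.N692.GXLM
import Pool.Agent.R303.SW.Mo
import Pool.Agent.W190.A17

/-!
# The mean square of the Mertens function under the Riemann hypothesis

Let `M(x) = ∑_{n ≤ x} μ(n)` and `I(x) = ∫_1^x (M(u)/u)² du`. We prove that the Riemann hypothesis holds if and only if

  `I(x) ≤ exp (C √(log x) / log log x)`    (`x ≥ 3`)

for some constant `C`. (The bound in Q1 is `I(x) ≤ C log x`; it implies the Riemann hypothesis.) Known were, under the
Riemann hypothesis, `I(x) ≤ exp(C log x / log log x)` (Titchmarsh), `exp((log x)^(39/61))` (Maier and Montgomery),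
`exp(√(log x) (log log x)^14)` (Soundararajan) and `exp(√(log x) (log log x)^(5/2 + ε))` (Balazard and de Roton), all of
them by the pointwise bounds for `M`.

Proof. For the pointwise bound `|M(x)| ≤ √x exp(C √(log x) / log log x)` (modules `Pool.Agent.N964.MX`) see
`MP_a499ba_nt.MertensBound`. It is integrated here. Conversely, if zeta has a zero with real part `> θ > 1/2`, then
`∫_x^(2x) |M(u)| du > x^(1+θ)` for all large `x` (the starting module `Pool.Agent.W190`), so that `I(2x)` exceeds a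
power of `x`.
-/

set_option autoImplicit false

open Filter Topology Set MeasureTheory
open Pool.Agent.W190 (SF rh_free)
open Pool.Agent.R303.SW

namespace Pool.Agent.Results.MP_323ce2_nt.MeanSquareBound

/-- the Mertens function `M(x) = ∑_{1 ≤ n ≤ x} μ(n)` -/
noncomputable def mertens (x : ℝ) : ℝ := ∑ n ∈ Finset.Icc 1 ⌊x⌋₊, ((ArithmeticFunction.moebius n : ℤ) : ℝ)

/-- `I(x) = ∫_1^x (M(u)/u)² du` -/
noncomputable def I (x : ℝ) : ℝ := ∫ u in (1 : ℝ)..x, (mertens u / u) ^ 2

lemma mertens_le {u : ℝ} (hu : 0 ≤ u) : |mertens u| ≤ u := by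
  have h1 : |mertens u| ≤ ∑ n ∈ Finset.Icc 1 ⌊u⌋₊, (1 : ℝ) := by
    refine (Finset.abs_sum_le_sum_abs _ _).trans (Finset.sum_le_sum fun n _ => ?_)
    have := ArithmeticFunction.abs_moebius_le_one (n := n)
    exact_mod_cast this
  rw [Finset.sum_const, Nat.card_Icc, Nat.add_sub_cancel, nsmul_eq_mul, mul_one] at h1
  exact h1.trans (Nat.floor_le hu)

lemma sq_le_one {u : ℝ} (hu : 1 ≤ u) : (mertens u / u) ^ 2 ≤ 1 := by
  have h0 : 0 < u := by linarith
  have h1 : |mertens u / u| ≤ 1 := by
    rw [abs_div, abs_of_pos h0, div_le_one h0]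
    exact mertens_le h0.le
  rw [← sq_abs]
  exact pow_le_one₀ (abs_nonneg _) h1

lemma integ {a b : ℝ} (ha : 1 ≤ a) (hab : a ≤ b) : IntervalIntegrable (fun u => (mertens u / u) ^ 2) volume a b := by
  have h1 : IntervalIntegrable mertens volume a b := SF_II muR a b
  rw [intervalIntegrable_iff_integrableOn_Ioc_of_le hab] at h1 ⊢
  have h2 : IntegrableOn (fun _ : ℝ => (1 : ℝ)) (Ioc a b) := by
    simp
  refine h2.mono' ?_ ?_
  · exact ((h1.aestronglyMeasurable.aemeasurable.div aemeasurable_id).pow_const 2).aestronglyMeasurable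
  · refine (ae_restrict_iff' measurableSet_Ioc).2 (ae_of_all _ fun u hu => ?_)
    rw [Real.norm_of_nonneg (sq_nonneg _)]
    exact sq_le_one (ha.trans hu.1.le)

/-- the direct part -/
lemma direct (h : ∃ C : ℝ, ∀ x : ℝ, 3 ≤ x →
    |mertens x| ≤ Real.sqrt x * Real.exp (C * (Real.sqrt (Real.log x) / Real.log (Real.log x)))) :
    ∃ C : ℝ, ∀ x : ℝ, 3 ≤ x → I x ≤ Real.exp (C * (Real.sqrt (Real.log x) / Real.log (Real.log x))) := by
  obtain ⟨C, hC⟩ := h
  refine ⟨48 + 2 * (|C| * Pool.Agent.N692.GXLM.KQ), fun x hx => ?_⟩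
  have hQ : Pool.Agent.N692.GXLM.Q x = Real.sqrt (Real.log x) / Real.log (Real.log x) := rfl
  rw [← hQ]
  set E := Real.exp (2 * (|C| * (Pool.Agent.N692.GXLM.KQ * Pool.Agent.N692.GXLM.Q x))) with hE
  have hKQ := Pool.Agent.N692.GXLM.KQ_pos
  have hQ0 := Pool.Agent.N692.GXLM.Q_nonneg hx
  have hE1 : 1 ≤ E := by
    rw [hE]
    exact Real.one_le_exp (by positivity)
  have key : ∀ u : ℝ, 1 ≤ u → u ≤ x → (mertens u / u) ^ 2 ≤ 3 * E * u⁻¹ := by
    intro u h1 h2
    have hu : 0 < u := by linarith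
    rcases lt_or_ge u 3 with h3 | h3
    · refine (sq_le_one h1).trans ?_
      have : 1 ≤ 3 * u⁻¹ := by
        rw [← div_eq_mul_inv, one_le_div hu]
        exact h3.le
      calc (1 : ℝ) ≤ 3 * u⁻¹ := this
        _ ≤ E * (3 * u⁻¹) := le_mul_of_one_le_left (by positivity) hE1
        _ = 3 * E * u⁻¹ := by ring
    · have h4 := hC u h3
      have h5 : C * (Real.sqrt (Real.log u) / Real.log (Real.log u)) ≤
          |C| * (Pool.Agent.N692.GXLM.KQ * Pool.Agent.N692.GXLM.Q x) := by
        have h6 := Pool.Agent.N692.GXLM.Q_mono h3 h2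
        have h7 := Pool.Agent.N692.GXLM.Q_nonneg h3
        calc C * (Real.sqrt (Real.log u) / Real.log (Real.log u)) ≤ |C| * Pool.Agent.N692.GXLM.Q u :=
              mul_le_mul_of_nonneg_right (le_abs_self C) h7
          _ ≤ _ := mul_le_mul_of_nonneg_left h6 (abs_nonneg C)
      have h8 : |mertens u| ≤ Real.sqrt u * Real.exp (|C| * (Pool.Agent.N692.GXLM.KQ * Pool.Agent.N692.GXLM.Q x)) :=
        h4.trans (mul_le_mul_of_nonneg_left (Real.exp_le_exp.2 h5) (Real.sqrt_nonneg _))
      have h9 : mertens u ^ 2 ≤ u * E := by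
        rw [← sq_abs]
        calc |mertens u| ^ 2 ≤ (Real.sqrt u * Real.exp (|C| * (Pool.Agent.N692.GXLM.KQ * Pool.Agent.N692.GXLM.Q x))) ^ 2 :=
              pow_le_pow_left₀ (abs_nonneg _) h8 2
          _ = u * E := by
              rw [mul_pow, Real.sq_sqrt hu.le, hE, ← Real.exp_nat_mul]
              norm_num
      rw [div_pow, div_le_iff₀ (by positivity)]
      calc mertens u ^ 2 ≤ u * E := h9
        _ ≤ 3 * (u * E) := by nlinarith [mul_pos hu (by linarith : 0 < E)]
        _ = 3 * E * u⁻¹ * u ^ 2 := by field_simp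
  have h1 : I x ≤ ∫ u in (1 : ℝ)..x, 3 * E * u⁻¹ := by
    unfold I
    refine intervalIntegral.integral_mono_on (by linarith) (integ le_rfl (by linarith)) ?_ fun u hu => key u hu.1 hu.2
    refine IntervalIntegrable.const_mul ?_ _
    refine intervalIntegral.intervalIntegrable_inv (fun u hu => ?_) continuousOn_id
    rw [uIcc_of_le (by linarith)] at hu
    have : (1 : ℝ) ≤ u := hu.1
    exact (by linarith : (0 : ℝ) < u).ne'
  have h2 : ∫ u in (1 : ℝ)..x, 3 * E * u⁻¹ = 3 * E * Real.log x := by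
    rw [intervalIntegral.integral_const_mul, integral_inv_of_pos one_pos (by linarith), div_one]
  rw [h2] at h1
  have h3 := Pool.Agent.N692.GXLM.log_le_exp hx
  have hL : 1 < Real.log x := (Pool.Agent.N692.GXLM.logs hx).1
  have h4 : 3 * Real.log x ≤ Real.exp (48 * Pool.Agent.N692.GXLM.Q x) := by
    have e1 : Real.exp (48 * Pool.Agent.N692.GXLM.Q x) = Real.exp (24 * Pool.Agent.N692.GXLM.Q x) ^ 2 := by
      rw [← Real.exp_nat_mul]
      congr 1
      push_cast
      ring
    rw [e1]
    nlinarith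
  calc I x ≤ 3 * E * Real.log x := h1
    _ = E * (3 * Real.log x) := by ring
    _ ≤ E * Real.exp (48 * Pool.Agent.N692.GXLM.Q x) := mul_le_mul_of_nonneg_left h4 (by linarith)
    _ = _ := by
        rw [hE, ← Real.exp_add]
        congr 1
        ring

/-- the converse -/
lemma converse (h : ∃ C : ℝ, ∀ x : ℝ, 3 ≤ x → I x ≤ Real.exp (C * (Real.sqrt (Real.log x) / Real.log (Real.log x)))) :
    RiemannHypothesis := by
  obtain ⟨C, hC⟩ := h
  rw [rh_free]
  intro s hs hz
  set θ := (1 / 2 + s.re) / 2 with hθ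
  have h1 : 1 / 2 < θ := by rw [hθ]; linarith
  have h2 : θ < s.re := by rw [hθ]; linarith
  have h3 := Pool.Agent.W190.moebius_window (κ := 0) (c := 1) (δ := 0) le_rfl one_pos (by norm_num) h1.le
    (by nlinarith [sq_nonneg (2 * θ - 1)]) ⟨s, hz, h2⟩
  set ε := (θ - 1 / 2) / 2 with hε
  have hε0 : 0 < ε := by rw [hε]; linarith
  -- large `x`
  have hlog := Real.tendsto_log_atTop
  have t1 : ∀ᶠ x : ℝ in atTop, (2 * |C| / ε) ^ 2 ≤ Real.log x := hlog.eventually_ge_atTop _
  have t2 : ∀ᶠ x : ℝ in atTop, Real.exp 1 ≤ Real.log x := hlog.eventually_ge_atTop _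
  have t3 : ∀ᶠ x : ℝ in atTop, (3 : ℝ) ≤ x ^ ε := (tendsto_rpow_atTop hε0).eventually_ge_atTop _
  obtain ⟨x, g1, g2, g3, g4, g5⟩ := (h3.and (t1.and (t2.and (t3.and (eventually_ge_atTop (3 : ℝ)))))).exists
  have hx0 : 0 < x := by linarith
  have hw := g1 0 (by simp)
  simp only [Polynomial.eval_zero, sub_zero, Real.rpow_zero, div_one, one_mul] at hw
  have hwin : x + x = 2 * x := by ring
  rw [hwin] at hw
  have hM : ∀ y, SF (fun n => ((ArithmeticFunction.moebius n : ℤ) : ℝ)) y = mertens y := fun y => rfl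
  -- the mean square
  have hI : ∫ u in x..(2 * x), (mertens u / u) ^ 2 ≤ I (2 * x) := by
    unfold I
    rw [← intervalIntegral.integral_add_adjacent_intervals (integ le_rfl (by linarith : (1 : ℝ) ≤ x))
      (integ (by linarith : (1 : ℝ) ≤ x) (by linarith : x ≤ 2 * x))]
    have : 0 ≤ ∫ u in (1 : ℝ)..x, (mertens u / u) ^ 2 :=
      intervalIntegral.integral_nonneg (by linarith) fun u _ => sq_nonneg _
    linarith
  have hQ2 : I (2 * x) ≤ x ^ ε := by
    refine (hC (2 * x) (by linarith)).trans ?_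
    rw [Real.rpow_def_of_pos hx0, Real.exp_le_exp]
    have hL2 : Real.log (2 * x) ≤ 4 * Real.log x := by
      rw [Real.log_mul (by norm_num) hx0.ne']
      have : Real.log 2 ≤ Real.log x := Real.log_le_log (by norm_num) (by linarith)
      have h0 : 0 ≤ Real.log x := Real.log_nonneg (by linarith)
      linarith
    have hLx : 0 ≤ Real.log x := Real.log_nonneg (by linarith)
    have hLL : 1 ≤ Real.log (Real.log (2 * x)) := by
      rw [Real.le_log_iff_exp_le (Real.log_pos (by linarith))]
      refine g3.trans (Real.log_le_log hx0 (by linarith))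
    have h5 : Real.sqrt (Real.log (2 * x)) / Real.log (Real.log (2 * x)) ≤ 2 * Real.sqrt (Real.log x) := by
      calc Real.sqrt (Real.log (2 * x)) / Real.log (Real.log (2 * x)) ≤ Real.sqrt (Real.log (2 * x)) :=
            div_le_self (Real.sqrt_nonneg _) hLL
        _ ≤ Real.sqrt (4 * Real.log x) := Real.sqrt_le_sqrt hL2
        _ = 2 * Real.sqrt (Real.log x) := by
            rw [Real.sqrt_mul (by norm_num), show (4 : ℝ) = 2 ^ 2 by norm_num, Real.sqrt_sq (by norm_num)]
    have h6 : 0 ≤ Real.sqrt (Real.log (2 * x)) / Real.log (Real.log (2 * x)) :=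
      div_nonneg (Real.sqrt_nonneg _) (by linarith)
    have h7 : 2 * |C| / ε ≤ Real.sqrt (Real.log x) := Real.le_sqrt_of_sq_le g2
    rw [div_le_iff₀ hε0] at h7
    calc C * (Real.sqrt (Real.log (2 * x)) / Real.log (Real.log (2 * x)))
        ≤ |C| * (Real.sqrt (Real.log (2 * x)) / Real.log (Real.log (2 * x))) :=
          mul_le_mul_of_nonneg_right (le_abs_self C) h6
      _ ≤ |C| * (2 * Real.sqrt (Real.log x)) := mul_le_mul_of_nonneg_left h5 (abs_nonneg _)
      _ = (2 * |C|) * Real.sqrt (Real.log x) := by ring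
      _ ≤ (Real.sqrt (Real.log x) * ε) * Real.sqrt (Real.log x) :=
          mul_le_mul_of_nonneg_right h7 (Real.sqrt_nonneg _)
      _ = Real.log x * ε := by
          rw [mul_comm (Real.sqrt _) ε, mul_assoc, Real.mul_self_sqrt hLx, mul_comm]
  -- the mean
  set t := x ^ (3 / 2 : ℝ) with ht
  have ht0 : 0 < t := Real.rpow_pos_of_pos hx0 _
  have hxt : x ^ 3 = t * t := by
    rw [ht, ← Real.rpow_add hx0, ← Real.rpow_natCast]
    norm_num
  have hmean : ∫ u in x..(2 * x), |mertens u| ≤ ∫ u in x..(2 * x), (t * (mertens u / u) ^ 2 + 4 * x ^ 2 / t) := by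
    refine intervalIntegral.integral_mono_on (by linarith) (SF_II muR _ _).abs ?_ fun u hu => ?_
    · exact ((integ (by linarith) (by linarith)).const_mul t).add intervalIntegrable_const
    · have hu0 : 0 < u := lt_of_lt_of_le hx0 hu.1
      have e1 : |mertens u| = u * |mertens u / u| := by
        rw [abs_div, abs_of_pos hu0]
        field_simp
      have e2 : u ^ 2 ≤ 4 * x ^ 2 := by nlinarith [hu.2]
      have e3 : u * |mertens u / u| ≤ t * (mertens u / u) ^ 2 + u ^ 2 / t := by
        rw [← sq_abs (mertens u / u)]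
        set v := |mertens u / u|
        have e4 : t * v ^ 2 + u ^ 2 / t - u * v = ((t * v - u) ^ 2 + t * v * u) / t := by
          field_simp
          ring
        have e5 : 0 ≤ ((t * v - u) ^ 2 + t * v * u) / t := by
          have : 0 ≤ v := abs_nonneg _
          positivity
        linarith
      rw [e1]
      refine e3.trans ?_
      have : u ^ 2 / t ≤ 4 * x ^ 2 / t := div_le_div_of_nonneg_right e2 ht0.le
      linarith
  have hsum : ∫ u in x..(2 * x), (t * (mertens u / u) ^ 2 + 4 * x ^ 2 / t) =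
      t * (∫ u in x..(2 * x), (mertens u / u) ^ 2) + 4 * t := by
    rw [intervalIntegral.integral_add ((integ (by linarith) (by linarith)).const_mul t) intervalIntegrable_const,
      intervalIntegral.integral_const_mul, intervalIntegral.integral_const, smul_eq_mul]
    congr 1
    rw [show 2 * x - x = x by ring, mul_div_assoc', show x * (4 * x ^ 2) = 4 * x ^ 3 by ring, hxt]
    field_simp
  have hfin : x ^ (1 + θ) < t * (x ^ ε + 4) := by
    calc x ^ (1 + θ) < ∫ u in x..(2 * x), |mertens u| := hw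
      _ ≤ t * (∫ u in x..(2 * x), (mertens u / u) ^ 2) + 4 * t := by rw [← hsum]; exact hmean
      _ ≤ t * (x ^ ε + 4) := by nlinarith [mul_le_mul_of_nonneg_left (hI.trans hQ2) ht0.le]
  have hpow : x ^ (1 + θ) = t * (x ^ ε * x ^ ε) := by
    rw [ht, ← Real.rpow_add hx0, ← Real.rpow_add hx0]
    congr 1
    rw [hε]
    ring
  rw [hpow] at hfin
  have := lt_of_mul_lt_mul_left hfin ht0.le
  nlinarith

/-- **Theorem.** The Riemann hypothesis holds if and only if `I(x) ≤ exp(C √(log x) / log log x)` for some `C` and all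
`x ≥ 3`. -/
theorem result : RiemannHypothesis ↔ ∃ C : ℝ, ∀ x : ℝ, 3 ≤ x →
    I x ≤ Real.exp (C * (Real.sqrt (Real.log x) / Real.log (Real.log x))) :=
  ⟨fun h => direct (Pool.Agent.N964.MX.rh_iff2.1 h), converse⟩

end Pool.Agent.Results.MP_323ce2_nt.MeanSquareBound
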