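import Pool.Agent.H295R2.T8

set_option autoImplicit false

/-!
# The Mertens function at the points `x / h`, `h ≤ x ^ δ`

Let `Θ ∈ [1/2, 1]` be the supremum of the real parts of the zeros of the zeta function and let
`F(x) = x^(1/2) (log log log x)^(5/4)`.

1. For every `0 < δ ≤ 1` the maximum of `|M(x/h)|` over the integers `h ≤ x^δ` is `x^(Θ + o(1))` as
   `x → ∞` through ALL real numbers.
2. For every `0 < δ ≤ 1` the Riemann hypothesis holds if and only if for every `ε > 0` there are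
   arbitrarily large integers `n` such that `|M(n/h)| ≤ n^(1/2+ε)` for all `h ≤ n^δ`.
3. If for some `0 < δ < 1` and some `K` there are arbitrarily large integers `n` such that
   `|M(n/h)| ≤ K F(n/h)` for all `h ≤ n^δ`, then the Riemann hypothesis holds.

So a bound of the order of the square root, at the `n^δ` points `n/h` of one scale `n`, for one
arbitrarily sparse sequence of scales, already implies the Riemann hypothesis.  (Author: helper825.)
-/

open Filter Topology

namespace Pool.Agent.Results.MP_323ce2_nt.MertensAtQuotients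

/-- `Θ`: the supremum of the real parts of the zeros of the Riemann zeta function in the critical
strip. -/
noncomputable def Theta : ℝ :=
  sSup (Complex.re '' {s : ℂ | riemannZeta s = 0 ∧ 0 < s.re ∧ s.re < 1})

/-- The Mertens function: the sum of the Möbius function over the positive integers `k ≤ x`. -/
noncomputable def M (x : ℝ) : ℝ :=
  ∑ k ∈ Finset.Icc 1 ⌊x⌋₊, ((ArithmeticFunction.moebius k : ℤ) : ℝ)

/-- The maximum of `|M (x / h)|` over the integers `1 ≤ h ≤ x ^ δ`. -/
noncomputable def maxM (δ x : ℝ) : ℝ :=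
  sSup {y : ℝ | ∃ h : ℕ, 1 ≤ h ∧ (h : ℝ) ≤ x ^ δ ∧ y = |M (x / h)|}

/-- `F(x) = x^(1/2) (log log log x)^(5/4)` -/
noncomputable def F (x : ℝ) : ℝ := x ^ (1 / 2 : ℝ) * Real.log (Real.log (Real.log x)) ^ (5 / 4 : ℝ)

lemma theta_le : Theta ≤ 1 := Pool.Agent.H295R2.zetaSup_le_one

lemma half_le_theta : 1 / 2 ≤ Theta := Pool.Agent.H295R2.half_le_zetaSup

/-- (copied from the starting file `Pool/Agent/W190/A17.lean`) -/
theorem rh_free : RiemannHypothesis ↔ ∀ s : ℂ, 1 / 2 < s.re → riemannZeta s ≠ 0 := by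
  constructor
  · intro hRH s hs h0
    have h1 : s.re < 1 := by
      by_contra h
      exact riemannZeta_ne_zero_of_one_le_re (not_lt.1 h) h0
    have := hRH s h0 (by
      rintro ⟨n, hn⟩
      rw [hn] at hs
      have h2 : (-2 * ((n:ℂ) + 1)).re = -2 * ((n:ℝ) + 1) := by simp
      rw [h2] at hs
      have : (0:ℝ) ≤ n := Nat.cast_nonneg n
      linarith) (by
      rintro rfl
      norm_num at h1)
    linarith
  · intro hfree s hs htriv hs1
    have hle : s.re ≤ 1 / 2 := by
      by_contra h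
      exact hfree s (not_le.1 h) hs
    have hre0 : 0 < s.re := by
      by_contra h
      push Not at h
      have hs0 : s ≠ 0 := by
        rintro rfl
        rw [riemannZeta_zero] at hs
        norm_num at hs
      have h1 : ∀ n : ℕ, (1 - s) ≠ -n := by
        intro n hn
        have h2 := congrArg Complex.re hn
        simp at h2
        have : (0:ℝ) ≤ n := Nat.cast_nonneg n
        linarith
      have h2 : (1 - s) ≠ 1 := by
        intro h3
        apply hs0
        linear_combination -h3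
      have h3 := riemannZeta_one_sub h1 h2
      rw [sub_sub_cancel, hs] at h3
      have hz : riemannZeta (1 - s) ≠ 0 := riemannZeta_ne_zero_of_one_le_re (by simp; linarith)
      have hG : Complex.Gamma (1 - s) ≠ 0 := Complex.Gamma_ne_zero h1
      have hp : (2 * (Real.pi : ℂ)) ^ (-(1 - s)) ≠ 0 := by
        rw [Complex.cpow_def_of_ne_zero]
        · exact Complex.exp_ne_zero _
        · norm_num [Real.pi_ne_zero]
      have hc : Complex.cos (Real.pi * (1 - s) / 2) = 0 := by
        by_contra hc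
        exact absurd h3.symm (mul_ne_zero (mul_ne_zero (mul_ne_zero (mul_ne_zero two_ne_zero hp) hG) hc) hz)
      rw [Complex.cos_eq_zero_iff] at hc
      obtain ⟨k, hk⟩ := hc
      have hpi : (Real.pi : ℂ) ≠ 0 := by exact_mod_cast Real.pi_ne_zero
      have hs2 : s = -2 * (k : ℂ) := by
        field_simp at hk
        linear_combination (-1 : ℂ) * hk
      have hkpos : 0 < k := by
        have h4 := congrArg Complex.re hs2
        simp at h4
        have h5 : (0:ℝ) < k := by
          have h6 : s.re ≠ 0 := by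
            intro h7
            rw [h7] at h4
            have h8 : (k:ℝ) = 0 := by linarith
            apply hs0
            have h9 : (k:ℤ) = 0 := by exact_mod_cast h8
            rw [hs2, h9]
            simp
          have h10 : s.re < 0 := lt_of_le_of_ne h h6
          linarith
        exact_mod_cast h5
      apply htriv
      refine ⟨(k - 1).toNat, ?_⟩
      have h6 : (((k - 1).toNat : ℕ) : ℂ) = (k : ℂ) - 1 := by
        have : (((k - 1).toNat : ℤ)) = k - 1 := Int.toNat_of_nonneg (by omega)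
        have h7 : (((k - 1).toNat : ℤ) : ℂ) = ((k - 1 : ℤ) : ℂ) := by rw [this]
        push_cast at h7
        exact_mod_cast h7
      rw [h6, hs2]
      ring
    -- reflection
    by_contra hne
    have hlt : s.re < 1 / 2 := lt_of_le_of_ne hle hne
    have h1 : ∀ n : ℕ, s ≠ -n := by
      intro n hn
      have h2 := congrArg Complex.re hn
      simp at h2
      have : (0:ℝ) ≤ n := Nat.cast_nonneg n
      linarith
    have key := riemannZeta_one_sub h1 hs1
    rw [hs, mul_zero] at key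
    exact hfree (1 - s) (by simp; linarith) key

lemma theta_half_iff : Theta ≤ 1 / 2 ↔ RiemannHypothesis := by
  rw [rh_free]
  constructor
  · intro h s hs h0
    have h1 : s.re < 1 := by
      by_contra h1
      exact riemannZeta_ne_zero_of_one_le_re (not_lt.1 h1) h0
    have h4 : s.re ≤ Theta := by
      refine le_csSup ⟨1, ?_⟩ ⟨s, ⟨h0, by linarith, h1⟩, rfl⟩
      rintro x ⟨w, hw, rfl⟩
      exact hw.2.2.le
    linarith
  · intro h
    unfold Theta
    rcases Set.eq_empty_or_nonempty (Complex.re '' {s : ℂ | riemannZeta s = 0 ∧ 0 < s.re ∧ s.re < 1})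
      with h' | h'
    · rw [h', Real.sSup_empty]
      norm_num
    · refine csSup_le h' ?_
      rintro x ⟨w, hw, rfl⟩
      by_contra hlt
      push Not at hlt
      exact h w hlt hw.1

lemma limit {δ : ℝ} (hδ : 0 < δ) (hδ1 : δ ≤ 1) :
    Tendsto (fun x : ℝ => Real.log (maxM δ x) / Real.log x) atTop (𝓝 Theta) :=
  Pool.Agent.H295R2.mertens_limit hδ hδ1

lemma bdd (δ : ℝ) (n : ℕ) :
    BddAbove {y : ℝ | ∃ h : ℕ, 1 ≤ h ∧ (h : ℝ) ≤ (n : ℝ) ^ δ ∧ y = |M ((n : ℝ) / h)|} := by
  refine ⟨n, ?_⟩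
  rintro y ⟨h, h1, -, rfl⟩
  have h2 : (0 : ℝ) < h := by exact_mod_cast h1
  have h3 : (1 : ℝ) ≤ h := by exact_mod_cast h1
  refine (Pool.Agent.H295R2.abs_Mx_le (y := (n : ℝ) / h) (by positivity)).trans ?_
  exact div_le_self (by positivity) h3

lemma maxM_le_iff {δ : ℝ} (hδ : 0 < δ) {n : ℕ} (hn : 1 ≤ n) (B : ℝ) :
    maxM δ n ≤ B ↔ ∀ h : ℕ, 1 ≤ h → (h : ℝ) ≤ (n : ℝ) ^ δ → |M ((n : ℝ) / h)| ≤ B := by
  constructor
  · intro hB h h1 h2
    exact (le_csSup (bdd δ n) ⟨h, h1, h2, rfl⟩).trans hB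
  · intro hB
    refine csSup_le ⟨_, 1, le_rfl, ?_, rfl⟩ ?_
    · have : (1 : ℝ) ≤ n := by exact_mod_cast hn
      rw [Nat.cast_one]
      exact Real.one_le_rpow this hδ.le
    · rintro y ⟨h, h1, h2, rfl⟩
      exact hB h h1 h2

lemma maxM_nonneg {δ : ℝ} (n : ℕ) : 0 ≤ maxM δ n := by
  refine Real.sSup_nonneg ?_
  rintro y ⟨h, -, -, rfl⟩
  exact abs_nonneg _

/-- upper bound for the exponent along a sequence -/
lemma theta_le_of {δ m : ℝ} (hδ : 0 < δ) (hδ1 : δ ≤ 1) (hm : 0 < m)
    (h : ∃ᶠ n : ℕ in atTop, ∀ h : ℕ, 1 ≤ h → (h : ℝ) ≤ (n : ℝ) ^ δ →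
      |M ((n : ℝ) / h)| ≤ (n : ℝ) ^ m) : Theta ≤ m := by
  by_contra hcon
  push Not at hcon
  have hlim : Tendsto (fun n : ℕ => Real.log (maxM δ n) / Real.log n) atTop (𝓝 Theta) :=
    (limit hδ hδ1).comp tendsto_natCast_atTop_atTop
  obtain ⟨n, h2, h3, h4⟩ :=
    (h.and_eventually ((hlim.eventually (lt_mem_nhds hcon)).and (eventually_ge_atTop 2))).exists
  have hn1 : (1 : ℝ) < n := by exact_mod_cast (by omega : 1 < n)
  have hlog : 0 < Real.log n := Real.log_pos hn1
  have hle := (maxM_le_iff hδ (by omega) _).2 h2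
  rcases (maxM_nonneg (δ := δ) n).eq_or_lt with h0 | h0
  · rw [← h0, Real.log_zero, zero_div] at h3
    linarith
  · have h6 : Real.log (maxM δ n) ≤ m * Real.log n := by
      rw [← Real.log_rpow (by linarith)]
      exact Real.log_le_log h0 hle
    rw [lt_div_iff₀ hlog] at h3
    linarith

lemma F_le (ε : ℝ) (hε : 0 < ε) : ∀ᶠ y : ℝ in atTop, F y ≤ y ^ (1 / 2 + ε) := by
  have t1 : Tendsto (fun y : ℝ => Real.log (Real.log (Real.log y))) atTop atTop :=
    Real.tendsto_log_atTop.comp (Real.tendsto_log_atTop.comp Real.tendsto_log_atTop)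
  have t2 : Tendsto (fun y : ℝ => Real.log (Real.log y)) atTop atTop :=
    Real.tendsto_log_atTop.comp Real.tendsto_log_atTop
  have h3 := (isLittleO_log_rpow_atTop (show 0 < ε * (4 / 5) by linarith)).bound
    (show (0:ℝ) < 1 by norm_num)
  filter_upwards [t1.eventually_ge_atTop 1, t2.eventually_ge_atTop 1,
    Real.tendsto_log_atTop.eventually_ge_atTop 1, h3, eventually_ge_atTop 1] with y b1 b2 b3 b4 b5
  have c1 : Real.log (Real.log (Real.log y)) ≤ Real.log (Real.log y) :=
    (Real.log_le_sub_one_of_pos (by linarith)).trans (by linarith)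
  have c2 : Real.log (Real.log y) ≤ Real.log y :=
    (Real.log_le_sub_one_of_pos (by linarith)).trans (by linarith)
  have c3 : Real.log y ≤ y ^ (ε * (4 / 5)) := by
    rw [Real.norm_of_nonneg (by linarith), Real.norm_of_nonneg (by positivity), one_mul] at b4
    exact b4
  unfold F
  calc y ^ (1 / 2 : ℝ) * Real.log (Real.log (Real.log y)) ^ (5 / 4 : ℝ)
      ≤ y ^ (1 / 2 : ℝ) * (y ^ (ε * (4 / 5))) ^ (5 / 4 : ℝ) := by
        gcongr
        linarith
    _ = y ^ (1 / 2 + ε) := by
        rw [← Real.rpow_mul (by linarith), ← Real.rpow_add (by linarith)]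
        congr 1
        ring

/-- **The Mertens function at the points `x / h`, `h ≤ x ^ δ`.** -/
theorem result :
    (∀ δ : ℝ, 0 < δ → δ ≤ 1 →
      Tendsto (fun x : ℝ => Real.log (maxM δ x) / Real.log x) atTop (𝓝 Theta)) ∧
    (∀ δ : ℝ, 0 < δ → δ ≤ 1 → (RiemannHypothesis ↔
      ∀ ε : ℝ, 0 < ε → ∃ᶠ n : ℕ in atTop,
        ∀ h : ℕ, 1 ≤ h → (h : ℝ) ≤ (n : ℝ) ^ δ → |M ((n : ℝ) / h)| ≤ (n : ℝ) ^ (1 / 2 + ε))) ∧
    (∀ δ K : ℝ, 0 < δ → δ < 1 →
      (∃ᶠ n : ℕ in atTop,
        ∀ h : ℕ, 1 ≤ h → (h : ℝ) ≤ (n : ℝ) ^ δ → |M ((n : ℝ) / h)| ≤ K * F ((n : ℝ) / h)) →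
      RiemannHypothesis) := by
  refine ⟨fun δ hδ hδ1 => limit hδ hδ1, fun δ hδ hδ1 => ⟨fun hrh ε hε => ?_, fun h => ?_⟩,
    fun δ K hδ hδ1 h => ?_⟩
  · have hΘ : Theta = 1 / 2 := le_antisymm (theta_half_iff.2 hrh) half_le_theta
    have hlim : Tendsto (fun n : ℕ => Real.log (maxM δ n) / Real.log n) atTop (𝓝 Theta) :=
      (limit hδ hδ1).comp tendsto_natCast_atTop_atTop
    refine Eventually.frequently ?_
    filter_upwards [hlim.eventually (gt_mem_nhds (show Theta < 1 / 2 + ε by linarith)),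
      eventually_ge_atTop 2] with n hn hn2
    have hn1 : (1 : ℝ) < n := by exact_mod_cast (by omega : 1 < n)
    have hlog : 0 < Real.log n := Real.log_pos hn1
    refine (maxM_le_iff hδ (by omega) _).1 ?_
    rcases (maxM_nonneg (δ := δ) n).eq_or_lt with h0 | h0
    · rw [← h0]
      positivity
    · rw [← Real.log_le_log_iff h0 (by positivity), Real.log_rpow (by linarith)]
      rw [div_lt_iff₀ hlog] at hn
      exact hn.le
  · refine theta_half_iff.1 (le_of_forall_pos_le_add fun ε hε => ?_)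
    exact theta_le_of hδ hδ1 (by linarith) (h ε hε)
  · refine theta_half_iff.1 (le_of_forall_pos_le_add fun ε hε => ?_)
    refine theta_le_of hδ hδ1.le (by linarith) ?_
    obtain ⟨y₀, hy₀⟩ := eventually_atTop.1 (F_le (ε / 2) (by linarith))
    have t4 : ∀ᶠ y : ℝ in atTop, 0 ≤ F y := by
      have t2 : Tendsto (fun y : ℝ => Real.log (Real.log (Real.log y))) atTop atTop :=
        Real.tendsto_log_atTop.comp (Real.tendsto_log_atTop.comp Real.tendsto_log_atTop)
      filter_upwards [t2.eventually_ge_atTop 0, eventually_ge_atTop 0] with y b1 b2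
      unfold F
      positivity
    obtain ⟨y₁, hy₁⟩ := eventually_atTop.1 t4
    have t5 : Tendsto (fun n : ℕ => (n : ℝ) ^ (1 - δ)) atTop atTop :=
      (tendsto_rpow_atTop (by linarith)).comp tendsto_natCast_atTop_atTop
    have t6 : Tendsto (fun n : ℕ => (n : ℝ) ^ (ε / 2)) atTop atTop :=
      (tendsto_rpow_atTop (by linarith)).comp tendsto_natCast_atTop_atTop
    refine (h.and_eventually ((t5.eventually_ge_atTop (max y₀ y₁)).and
      ((t6.eventually_ge_atTop |K|).and (eventually_ge_atTop 1)))).mono ?_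
    rintro n ⟨g0, g1, g2, g3⟩ h h1 h2
    have hn1 : (1 : ℝ) ≤ n := by exact_mod_cast g3
    have hn0 : (0 : ℝ) < n := by linarith
    have hh : (1 : ℝ) ≤ h := by exact_mod_cast h1
    have hh0 : (0 : ℝ) < h := by linarith
    have hq : (n : ℝ) ^ (1 - δ) ≤ (n : ℝ) / h := by
      rw [le_div_iff₀ hh0]
      calc (n : ℝ) ^ (1 - δ) * h ≤ (n : ℝ) ^ (1 - δ) * (n : ℝ) ^ δ := by gcongr
        _ = n := by rw [← Real.rpow_add hn0, sub_add_cancel, Real.rpow_one]
    have b1 : F ((n : ℝ) / h) ≤ ((n : ℝ) / h) ^ (1 / 2 + ε / 2) :=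
      hy₀ _ ((le_max_left _ _).trans (g1.trans hq))
    have b2 : 0 ≤ F ((n : ℝ) / h) := hy₁ _ ((le_max_right _ _).trans (g1.trans hq))
    calc |M ((n : ℝ) / h)| ≤ K * F ((n : ℝ) / h) := g0 h h1 h2
      _ ≤ |K| * F ((n : ℝ) / h) := mul_le_mul_of_nonneg_right (le_abs_self K) b2
      _ ≤ |K| * ((n : ℝ) / h) ^ (1 / 2 + ε / 2) := mul_le_mul_of_nonneg_left b1 (abs_nonneg K)
      _ ≤ (n : ℝ) ^ (ε / 2) * (n : ℝ) ^ (1 / 2 + ε / 2) := by
          gcongr
          exact div_le_self hn0.le hh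
      _ = (n : ℝ) ^ (1 / 2 + ε) := by
          rw [← Real.rpow_add hn0]
          congr 1
          ring

end Pool.Agent.Results.MP_323ce2_nt.MertensAtQuotients
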