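import Pool.Agent.N739.OW.Sq

/-!
# The Mertens function has large values of both signs in every window of a fixed ratio

Let `M(u) = ∑_{n ≤ u} μ(n)`, `s = 1` or `s = -1`, and for `1/2 < σ < 1` let

`Z(σ) = ∑ m(ρ) / Im ρ` over the distinct zeros `ρ` of `ζ` with `Re ρ ≥ σ` and `Im ρ > 0`, `m(ρ)` the multiplicity.

The sum converges (density theorem), it is `0` if there are no such zeros. We prove unconditionally:

1. If `log A > π Z(σ)` then for every zero `ρ` with `Re ρ > σ` and every `ε > 0`, for ALL large `X`,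
   `∫_X^{AX} max(s M(u), 0) du ≥ X^(1 + Re ρ - ε)` for both signs. So each zero to the right of the critical line is
   seen with both signs in EVERY window `[X, AX]`, with a constant ratio `A` that does not depend on the zero.
2. `ζ` has a zero-free half-plane `Re s > σ₀`, `σ₀ < 1`, if and only if for one `A > 1` and one `δ > 0` there are
   arbitrarily large `X` with `∫_X^{AX} max(s M(u), 0) du ≤ X^(2-δ)`. (The ratio `A` may be as near to `1` as one
   likes, and the `X` as sparse as one likes.)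
3. The Riemann hypothesis holds if and only if for all `A > 1` and `ε > 0` there are arbitrarily large `X` with
   `∫_X^{AX} (max(s M(u), 0) / u)² du ≤ X^ε`; for the weak Mertens hypothesis the same integral, with both parts of
   `M`, is `O(log X)` for all `X`.

Proof of 1. There is a NONDECREASING smooth cutoff `W` (`0` on `(-∞, 1]`, `1` on `[A, ∞)`) with
`∑ μ(n) W(x/n) ≪ x^θ`, `σ < θ < Re ρ` (starting file `MonotoneCutoffs`; `A` is given by the sum `Z(σ)`). By partial
summation `∑ μ(n) W(x/n)` is a mean of `M` over `[x/A, x]` with NONNEGATIVE weights. So the positive and the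
negative part of `M` have the same mean up to `x^θ`, and the mean of `|M|` is large by the two-sided theorem of
the starting file `MertensWindows`.
-/

set_option autoImplicit false

open MeasureTheory Filter Topology

namespace Pool.Agent.Results.MP_323ce2_nt.OneSidedBoundedWindows

/-- The Mertens function. -/
noncomputable def mertens (u : ℝ) : ℝ :=
  ∑ n ∈ Finset.Icc 1 ⌊u⌋₊, ((ArithmeticFunction.moebius n : ℤ) : ℝ)

/-- The (distinct) zeros of `ζ` with `Re ρ ≥ σ` and `Im ρ > 0`. -/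
def Zeros (σ : ℝ) : Type := {ρ : ℂ // riemannZeta ρ = 0 ∧ σ ≤ ρ.re ∧ 0 < ρ.im}

/-- The summands `m(ρ) / Im ρ`, `m(ρ)` the order of the zero. -/
noncomputable def term (σ : ℝ) (ρ : Zeros σ) : ℝ :=
  (analyticOrderNatAt riemannZeta ρ.val : ℝ) / ρ.val.im

/-- `Z(σ)`, the sum of `m(ρ) / Im ρ` over the zeros `ρ` of `ζ` with `Re ρ ≥ σ` and `Im ρ > 0`. -/
noncomputable def zeroSum (σ : ℝ) : ℝ := ∑' ρ : Zeros σ, term σ ρ

/-- `∫_X^{AX} max(s M(u), 0) du`. -/
noncomputable def part (s A X : ℝ) : ℝ := ∫ u in X..(A * X), max (s * mertens u) 0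

/-- `∫_X^{AX} (max(s M(u), 0) / u)² du`. -/
noncomputable def partSq (s A X : ℝ) : ℝ := ∫ u in X..(A * X), (max (s * mertens u) 0 / u) ^ 2

/-- **Main theorem.** -/
theorem result (s : ℝ) (hs : s = 1 ∨ s = -1) :
    (∀ σ : ℝ, 1 / 2 < σ → σ < 1 → Summable (term σ) ∧
      ∀ A : ℝ, 1 < A → Real.pi * zeroSum σ < Real.log A →
        ∀ ρ : ℂ, riemannZeta ρ = 0 → σ < ρ.re → ∀ ε : ℝ, 0 < ε →
          ∀ᶠ X : ℝ in atTop, X ^ (1 + ρ.re - ε) ≤ part s A X) ∧
    ((∃ σ₀ : ℝ, σ₀ < 1 ∧ ∀ z : ℂ, σ₀ < z.re → riemannZeta z ≠ 0) ↔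
      ∃ A δ : ℝ, 1 < A ∧ 0 < δ ∧ ∃ᶠ X : ℝ in atTop, part s A X ≤ X ^ (2 - δ)) ∧
    (RiemannHypothesis ↔
      ∀ A ε : ℝ, 1 < A → 0 < ε → ∃ᶠ X : ℝ in atTop, partSq s A X ≤ X ^ ε) := by
  refine ⟨fun σ h1 h2 => ⟨Pool.Agent.N739.OW.hsum_summable h1 h2, fun A hA0 hA ρ hz hρ ε hε => ?_⟩, ?_, ?_⟩
  · exact Pool.Agent.N739.OW.inp_mu.one h1 h2 (by linarith) hA hz hρ hε hs
  · exact Pool.Agent.N739.OW.inp_mu.quasi hs
  · exact Pool.Agent.N739.OW.inp_mu.rh_sq hs

end Pool.Agent.Results.MP_323ce2_nt.OneSidedBoundedWindows
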