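import Pool.Agent.N282.WM.All

/-!
# The weak Mertens hypothesis for random signs

Let `s_p` be independent random signs and `f(n) = μ(n) ∏_{p | n} s_p`, the random multiplicative function which is the
standard probabilistic model of `μ`. Almost surely `f` satisfies the statement of Q1 literally:
`∫_1^x (M_f(u)/u)² du ≤ K log x` for all `x ≥ 2`, `M_f(u) = ∑_{n ≤ u} f(n)`. Moreover the best constant `K` has a
tail of the order `1/l`: with an absolute `C`, the probability that the integral exceeds `l log x` for SOME `x ≥ 2` is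
at most `C/l`. There is no hypothesis.

Proof. Let `A_y = ∫_1^∞ (∑ f(n))² du/u²`, the sum over the divisors `n ≤ u` of the product of the primes `≤ y`. Then
`A_y / ∏_{p ≤ y} (1 + 1/p)` is a nonnegative martingale (the mixed terms which appear with a new prime `p` are
`s_p` times a function of the earlier signs), so that Doob's maximal inequality bounds `A_y / log y` for all `y` at
once; and `∫_1^x (M_f(u)/u)² du ≤ A_x`. The maximal inequality was formalised by helper749.
-/

set_option autoImplicit false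

open MeasureTheory Filter Topology

namespace Pool.Agent.Results.MP_323ce2_nt.RandomSigns

/-- `f(n) = μ(n) ∏_{p | n} s_p`. -/
noncomputable def f (s : ℕ → ℝ) (n : ℕ) : ℝ :=
  ((ArithmeticFunction.moebius n : ℤ) : ℝ) * ∏ p ∈ n.primeFactors, s p

/-- The integral of the question with `f` in place of `μ`: `∫_1^x (M_f(u)/u)² du`. -/
noncomputable def I (s : ℕ → ℝ) (x : ℝ) : ℝ := ∫ u in (1 : ℝ)..x, ((∑ n ∈ Finset.Icc 1 ⌊u⌋₊, f s n) / u) ^ 2

/-- For independent random signs `s_p` the probability that `I(x) > l log x` for some `x ≥ 2` is at most `C/l`, and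
almost surely there is `K` with `I(x) ≤ K log x` for all `x ≥ 2`. -/
theorem result : ∃ C : ℝ, 0 < C ∧ ∀ (Ω : Type) (_ : MeasurableSpace Ω) (P : Measure Ω) (_ : IsProbabilityMeasure P)
    (s : ℕ → Ω → ℝ), (∀ p, Measurable (s p)) → (∀ p ω, s p ω = 1 ∨ s p ω = -1) → (∀ p, ∫ ω, s p ω ∂P = 0) →
    ProbabilityTheory.iIndepFun s P →
      (∀ l : ℝ, 0 < l → (P {ω | ∃ x : ℝ, 2 ≤ x ∧ l * Real.log x < I (fun p => s p ω) x}).toReal ≤ C / l) ∧
      ∀ᵐ ω ∂P, ∃ K : ℝ, ∀ x : ℝ, 2 ≤ x → I (fun p => s p ω) x ≤ K * Real.log x :=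
  Pool.Agent.N282.WM.a_WM

end Pool.Agent.Results.MP_323ce2_nt.RandomSigns
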